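import Pool.Agent.H21.HV.Defs

/-!
# Project HW (helper39, helper65): Havet-Yu for all graphs, `ε D ≤ p`: tools

`nb`, `Clq`, `Prp`, `TotLab` are those of `Pool.Agent.H21.HV.Defs`.
Every `S_XXX` is a part: prove it as `theorem t_XXX : S_XXX` in a file of your own
`Pool/Agent/H<nr>/HW/Xxx.lean` (library modules may be imported).
-/

set_option autoImplicit false
open Classical Finset

namespace Pool.Agent.H65.HW

open Pool.Agent.H21.HV

/-- `Γ` has edges between `P` and `Q` only (the parts of a bipartite graph) -/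
def Bip {V : Type} (Γ : SimpleGraph V) (P Q : Finset V) : Prop :=
  Disjoint P Q ∧ ∀ u v, Γ.Adj u v → (u ∈ P ∧ v ∈ Q) ∨ (u ∈ Q ∧ v ∈ P)

/-- REG: it suffices to label regular graphs (every graph of maximum degree at most `D` is a
subgraph of a `D`-regular graph: two copies, joined by a matching between the copies of the
vertices of degree less than `D`; repeat) -/
def S_REG : Prop :=
  ∀ (D p l : ℕ),
    (∀ (V' : Type) [Fintype V'] (G' : SimpleGraph V'), (∀ v, nb G' univ v = D) → TotLab G' p l) →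
    ∀ (V : Type) [Fintype V] (G : SimpleGraph V), (∀ v, nb G univ v ≤ D) → TotLab G p l

/-- PRT: random partition of the vertices of a `D`-regular graph into `n` cells of densities `q i`
(from the library `t_PART` with many equal cells, which are then united) -/
def S_PRT : Prop :=
  ∀ (n : ℕ) (δ : ℝ), 1 ≤ n → 0 < δ → ∃ D0 : ℕ, ∀ D : ℕ, D0 ≤ D → ∀ q : Fin n → ℝ,
    (∀ i, 0 ≤ q i) → ∑ i, q i = 1 → ∀ (V : Type) [Fintype V] (G : SimpleGraph V),
    (∀ v, nb G univ v = D) →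
    ∃ cl : V → Fin n, ∀ v i, |(nb G (univ.filter (fun u => cl u = i)) v : ℝ) - q i * D| ≤ δ * D

/-- KOE: Koenig's theorem -/
def S_KOE : Prop :=
  ∀ (V : Type) [Fintype V] (Γ : SimpleGraph V) (P Q : Finset V) (N : ℕ), Bip Γ P Q →
    (∀ v, nb Γ univ v ≤ N) → ∃ c : V → V → ℕ, Prp Γ N c

/-- VIZ: Vizing's theorem (library `Pool.Agent.H238R2.HY.vizing`) -/
def S_VIZ : Prop :=
  ∀ (V : Type) [Fintype V] (Γ : SimpleGraph V) (d : ℕ), (∀ v, nb Γ univ v ≤ d) →
    ∃ c : V → V → ℕ, Prp Γ (d + 1) c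

/-- EQU: equitable edge colourings of bipartite graphs with `n` colours (split every vertex into
vertices of degree `n` and one of degree at most `n`, then Koenig) -/
def S_EQU : Prop :=
  ∀ (V : Type) [Fintype V] (Γ : SimpleGraph V) (P Q : Finset V) (n : ℕ), Bip Γ P Q → 1 ≤ n →
    ∃ c : V → V → ℕ, (∀ u v, c u v = c v u) ∧ (∀ u v, Γ.Adj u v → c u v < n) ∧
      ∀ v, ∀ i < n, nb Γ univ v / n ≤ (univ.filter (fun u => Γ.Adj v u ∧ c v u = i)).card ∧
        (univ.filter (fun u => Γ.Adj v u ∧ c v u = i)).card ≤ (nb Γ univ v + n - 1) / n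

/-- RND: rounding of edge weights of a bipartite graph, exact at the vertices of `P` -/
def S_RND : Prop :=
  ∀ (V : Type) [Fintype V] (Γ : SimpleGraph V) (P Q : Finset V) (y : V → V → ℝ) (n : V → ℕ),
    Bip Γ P Q → (∀ z u, 0 ≤ y z u ∧ y z u ≤ 1) →
    (∀ z ∈ P, ∑ u ∈ univ.filter (fun u => Γ.Adj z u), y z u = n z) →
    ∃ Λ : SimpleGraph V, Λ ≤ Γ ∧ (∀ z ∈ P, nb Λ univ z = n z) ∧
      ∀ u ∈ Q, |(nb Λ univ u : ℝ) - ∑ z ∈ univ.filter (fun z => Γ.Adj z u), y z u| < 1

/-- BKW: Borodin-Kostochka-Woodall, lists at the vertices of `P` (exactly as many colours as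
edges at `z ∈ P`, and at least as many as at every neighbour): kernel method of Galvin. -/
def S_BKW : Prop :=
  ∀ (V : Type) [Fintype V] (Γ : SimpleGraph V) (P Q : Finset V) (L : V → Finset ℕ), Bip Γ P Q →
    (∀ z ∈ P, nb Γ univ z ≤ (L z).card) →
    (∀ z ∈ P, ∀ u ∈ Q, Γ.Adj z u → nb Γ univ u ≤ nb Γ univ z) →
    ∃ c : V → V → ℕ, (∀ u v, c u v = c v u) ∧
      (∀ u v w, Γ.Adj u v → Γ.Adj u w → v ≠ w → c u v ≠ c u w) ∧
      ∀ z ∈ P, ∀ u, Γ.Adj z u → c z u ∈ L z

/-- HAL2: system of distinct representatives from degrees -/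
def S_HAL2 : Prop :=
  ∀ (X Y : Type) (P : Finset X) (Q : Finset Y) (R : X → Y → Prop) (d : ℕ), 1 ≤ d →
    (∀ x ∈ P, d ≤ (Q.filter (fun y => R x y)).card) →
    (∀ y ∈ Q, (P.filter (fun x => R x y)).card ≤ d) → Nonempty Y →
    ∃ f : X → Y, (∀ x ∈ P, f x ∈ Q ∧ R x (f x)) ∧ ∀ x ∈ P, ∀ x' ∈ P, f x = f x' → x = x'

/-- DEC: decomposition of an integer matrix with row sums `t` and column sums at most `t` into `t`
injections (Koenig for bipartite multigraphs) -/
def S_DEC : Prop :=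
  ∀ (A B : Type) [Fintype A] [Fintype B] (k : A → B → ℕ) (t : ℕ), (∀ a, ∑ b, k a b = t) →
    (∀ b, ∑ a, k a b ≤ t) → ∃ φ : Fin t → A → B, (∀ y, Function.Injective (φ y)) ∧
      ∀ a b, (univ.filter (fun y : Fin t => φ y a = b)).card = k a b

end Pool.Agent.H65.HW
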