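import Pool.Agent.H65.HW.Gra
import Pool.Agent.H59.HW.Asm
import Pool.Agent.H59.HW.TZ
import Pool.Agent.H59.HW.Tst
import Pool.Agent.H61.HW.Cel
import Pool.Agent.H61.HW.Viz
import Pool.Agent.H87.HW.Blb
import Pool.Agent.H87.HW.Pal
import Pool.Agent.H43.HW.Deg
import Pool.Agent.H33.HW.Koe
import Pool.Agent.H33.HW.Reg
import Pool.Agent.H79.HW.Evd
import Pool.Agent.H79.HW.Gre
import Pool.Agent.H79.HW.Rnm
import Pool.Agent.H68.HW.Hal2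
import Pool.Agent.H68.HW.Trm
import Pool.Agent.H54.HW.Halc
import Pool.Agent.H44.HW.Sel
import Pool.Agent.H44.HW.Tsa
import Pool.Agent.H66.HW.Lft
import Pool.Agent.H27.HW.Win
import Pool.Agent.H32.HW.Tz3
import Pool.Agent.H69.HW.Prt
import Pool.Agent.H38.HW.Trn

/-!
# Project HW: the graph side, complete
-/

set_option autoImplicit false

namespace Pool.Agent.H65.HW

open Pool.Agent.H39.HW (S_GRA S_SCH S_FIN)

theorem gra_all : S_GRA :=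
  t_GRA (Pool.Agent.H61.HW.t_CEL Pool.Agent.H69.HW.t_PRT) Pool.Agent.H27.HW.t_WIN
    (Pool.Agent.H27.HW.t_LOO Pool.Agent.H61.HW.t_VIZ)
    (Pool.Agent.H59.HW.t_TST (Pool.Agent.H44.HW.t_TSA Pool.Agent.H68.HW.t_HAL2)
      Pool.Agent.H59.HW.t_TZ2 Pool.Agent.H32.HW.t_TZ3 Pool.Agent.H32.HW.t_PTC)
    (Pool.Agent.H66.HW.t_LFT
      (Pool.Agent.H44.HW.t_SEL (Pool.Agent.H54.HW.t_HALC Pool.Agent.H68.HW.t_HAL2))
      (Pool.Agent.H38.HW.t_TRN Pool.Agent.H68.HW.t_TRM Pool.Agent.H79.HW.t_RNM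
        Pool.Agent.H79.HW.t_EVD)
      (Pool.Agent.H43.HW.t_CNT Pool.Agent.H59.HW.t_TZ1)
      (Pool.Agent.H43.HW.t_DEG Pool.Agent.H32.HW.t_TZ3))
    (Pool.Agent.H87.HW.t_LEF (Pool.Agent.H87.HW.t_BLB Pool.Agent.H33.HW.t_KOE))
    (Pool.Agent.H87.HW.t_PAL (Pool.Agent.H87.HW.t_BLB Pool.Agent.H33.HW.t_KOE))
    (Pool.Agent.H27.HW.t_YYE Pool.Agent.H79.HW.t_GRE)
    Pool.Agent.H59.HW.t_ASM

theorem fin_all (h : S_SCH) : S_FIN := t_FIN Pool.Agent.H33.HW.t_REG gra_all h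

end Pool.Agent.H65.HW
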