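import Pool.Agent.H39.HW.Defs
import Pool.Agent.H65.HW.Tools

/-!
# Project HW, graph side: statements of the parts

Every `S_XXX` is a part: prove it as `theorem t_XXX : S_XXX` (or with the other statements it needs
as hypotheses, e.g. `theorem t_LEF (h : S_BLB) : S_LEF`) in a file
`Pool/Agent/H<nr>/HW/Xxx.lean`.  Basic facts about blocks: `Pool/Agent/H65/HW/GBas.lean`.
Complete paper proof: `Pool/Agent/H39/HW/NOTES.md` and the docstrings.
-/

set_option autoImplicit false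
open Classical Finset

namespace Pool.Agent.H65.HW

open Pool.Agent.H21.HV (nb Prp TotLab)
open Pool.Agent.H39.HW (sm Av ln blk lab Dat Sch Reg S_GRA S_SCH S_FIN)

/-! ### abstract tools -/

/-- HALC: Hall with capacity `C` (from HAL2 with `C` copies of every `y`) -/
def S_HALC : Prop :=
  ∀ (X Y : Type) (P : Finset X) (Q : Finset Y) (R : X → Y → Prop) (d C : ℕ), 1 ≤ d →
    (∀ x ∈ P, d ≤ (Q.filter (fun y => R x y)).card) →
    (∀ y ∈ Q, (P.filter (fun x => R x y)).card ≤ C * d) → Nonempty Y →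
    ∃ f : X → Y, (∀ x ∈ P, f x ∈ Q ∧ R x (f x)) ∧ ∀ y ∈ Q, (P.filter (fun x => f x = y)).card ≤ C

/-- SEL: choice of `r z` edges at every `z ∈ P`, at most `r0 * C` edges at every `u ∈ Q`: `r0`
rounds, in the round `i < r0` every `z` with `i < r z` gets one more edge (HALC for the edges not
yet used) -/
def S_SEL : Prop :=
  ∀ (V : Type) [Fintype V] (Γ : SimpleGraph V) (P Q : Finset V) (r : V → ℕ) (r0 d C : ℕ),
    Disjoint P Q → 1 ≤ d → (∀ z ∈ P, r z ≤ r0) → (∀ z ∈ P, d + r0 ≤ nb Γ Q z) →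
    (∀ u ∈ Q, nb Γ P u ≤ C * d) →
    ∃ Λ : SimpleGraph V, Λ ≤ Γ ∧ (∀ u v, Λ.Adj u v → (u ∈ P ∧ v ∈ Q) ∨ (u ∈ Q ∧ v ∈ P)) ∧
      (∀ z ∈ P, nb Λ Q z = r z) ∧ ∀ u ∈ Q, nb Λ P u ≤ r0 * C

/-- GRE: greedy edge colouring from lists -/
def S_GRE : Prop :=
  ∀ (V : Type) [Fintype V] (Γ : SimpleGraph V) (d : ℕ) (Lst : V → V → Finset ℕ),
    (∀ u v, Lst u v = Lst v u) → (∀ v, nb Γ univ v ≤ d) →
    (∀ u v, Γ.Adj u v → 2 * d ≤ (Lst u v).card) →
    ∃ c : V → V → ℕ, (∀ u v, c u v = c v u) ∧ (∀ u v, Γ.Adj u v → c u v ∈ Lst u v) ∧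
      ∀ u v w, Γ.Adj u v → Γ.Adj u w → v ≠ w → c u v ≠ c u w

/-- BLB: Koenig group by group: the edge `u v` belongs to the group `be u v`, the group `i` has the
labels `Lb i`, every group is bipartite; groups which meet at a vertex have disjoint label sets -/
def S_BLB : Prop :=
  ∀ (V : Type) [Fintype V] (Γ : SimpleGraph V) (ι : Type) (be : V → V → ι) (Lb : ι → Finset ℕ)
    (P Q : ι → Finset V),
    (∀ u v, be u v = be v u) → (∀ i, Disjoint (P i) (Q i)) →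
    (∀ u v, Γ.Adj u v →
      (u ∈ P (be u v) ∧ v ∈ Q (be u v)) ∨ (u ∈ Q (be u v) ∧ v ∈ P (be u v))) →
    (∀ i u, (univ.filter (fun v => Γ.Adj u v ∧ be u v = i)).card ≤ (Lb i).card) →
    (∀ u v w, Γ.Adj u v → Γ.Adj u w → be u v ≠ be u w → Disjoint (Lb (be u v)) (Lb (be u w))) →
    ∃ g : V → V → ℕ, (∀ u v, g u v = g v u) ∧ (∀ u v, Γ.Adj u v → g u v ∈ Lb (be u v)) ∧
      ∀ u v w, Γ.Adj u v → Γ.Adj u w → v ≠ w → g u v ≠ g u w

/-- the vertices of the cell `i` -/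
noncomputable def cell {V : Type} [Fintype V] (cl : V → ℕ) (i : ℕ) : Finset V :=
  univ.filter fun v => cl v = i

/-- TSA: label by label matchings.  For the labels `n = 0, 1, 2, ...` one after the other choose a
matching of `{z ∈ Z : n ∈ Tp z}` into the special vertices (cells `B + y`, `y < m`), using new edges
only, cells `y` with `ok n y`, and at most `κ` edges from a vertex `z` to a cell.
At most `q` cells are full for `z` (`t ≤ q κ`), so at least `e` admissible cells are left, each gives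
at least `w - κ` new edges. -/
def S_TSA : Prop :=
  ∀ (V : Type) [Fintype V] (G : SimpleGraph V) (cl : V → ℕ) (Z : Finset V) (Tp : V → Finset ℕ)
    (N B m κ w t d q e : ℕ) (ok : ℕ → ℕ → Prop),
    (∀ z ∈ Z, cl z < B) → (∀ z ∈ Z, Tp z ⊆ range N) → (∀ z ∈ Z, (Tp z).card ≤ t) →
    1 ≤ κ → t ≤ q * κ → (∀ z ∈ Z, ∀ y < m, w + κ ≤ nb G (cell cl (B + y)) z) →
    (∀ n < N, q + e ≤ ((range m).filter (fun y => ok n y)).card) → d ≤ e * w → 1 ≤ d →
    (∀ n < N, ∀ u, (Z.filter (fun z => G.Adj u z ∧ n ∈ Tp z)).card ≤ d) →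
    ∃ (T : SimpleGraph V) (c : V → V → ℕ), T ≤ G ∧
      (∀ u v, T.Adj u v → (u ∈ Z ∧ B ≤ cl v) ∨ (B ≤ cl u ∧ v ∈ Z)) ∧
      (∀ u v, c u v = c v u) ∧
      (∀ u v w, T.Adj u v → T.Adj u w → v ≠ w → c u v ≠ c u w) ∧
      (∀ z u, T.Adj z u → z ∈ Z → c z u ∈ Tp z ∧ ok (c z u) (cl u - B) ∧ cl u < B + m) ∧
      (∀ z ∈ Z, nb T univ z = (Tp z).card) ∧
      ∀ z ∈ Z, ∀ y < m, nb T (cell cl (B + y)) z ≤ κ

/-- RNM: rounding of a matrix with integral row and column sums.  For `β ≠ β0` and `P ≠ P0 β`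
(where `d (P0 β) β > 0` if possible) take the integral part, the others are given by the sums. -/
def S_RNM : Prop :=
  ∀ (H : ℕ) (C : Finset ℕ) (d : ℕ → ℕ → ℝ) (ρ E : ℕ → ℕ) (β0 : ℕ), β0 ∈ C → 1 ≤ H →
    (∀ P < H, ∀ β ∈ C, 0 ≤ d P β) → (∀ P < H, ∑ β ∈ C, d P β = ρ P) →
    (∀ β ∈ C, ∑ P ∈ range H, d P β = E β) → (∀ P < H, (C.card : ℝ) * H ≤ d P β0) →
    ∃ d' : ℕ → ℕ → ℕ, (∀ P < H, ∑ β ∈ C, d' P β = ρ P) ∧
      (∀ β ∈ C, ∑ P ∈ range H, d' P β = E β) ∧
      (∀ P < H, ∀ β ∈ C, |(d' P β : ℝ) - d P β| ≤ C.card * H) ∧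
      ∀ P < H, ∀ β ∈ C, d P β = 0 → d' P β = 0

/-! ### the cells -/

/-- the situation: a regular graph, a scheme, and cells with nearly the right degrees: the cell
`a ∈ R` (row) and the cell `B + y`, `y < m` (special cell) -/
structure Ctx {V : Type} [Fintype V] (G : SimpleGraph V) (D p : ℕ) (s : Dat) (cl : V → ℕ) :
    Prop where
  sch : Sch D p s
  reg : Reg G D
  val : ∀ v, cl v ∈ s.R ∨ (s.B ≤ cl v ∧ cl v < s.B + s.m)
  row : ∀ v, ∀ a ∈ s.R, |(nb G (cell cl a) v : ℝ) - s.μ * D| ≤ s.δ * D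
  spe : ∀ v, ∀ y < s.m, |(nb G (cell cl (s.B + y)) v : ℝ) - s.ω * D| ≤ s.δ * D
  big : (100 : ℝ) * (s.m + 2) * (s.B + 2) * (s.H + 2) ≤ s.δ * D

/-- CEL: the cells exist (S_PRT with `s.R.card + s.m ≤ B0 + m0` cells, `tot`) -/
def S_CEL : Prop :=
  ∀ (B0 m0 : ℕ) (δ : ℝ), 0 < δ → ∃ D0 : ℕ, ∀ D : ℕ, D0 ≤ D → ∀ (p : ℕ) (s : Dat), Sch D p s →
    s.B ≤ B0 → s.m ≤ m0 → s.H ≤ m0 → s.δ = δ → ∀ (V : Type) [Fintype V] (G : SimpleGraph V),
      Reg G D → ∃ cl : V → ℕ, Ctx G D p s cl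

/-- DIST: `K` consecutive blocks have at least `p` labels -/
def S_DIST : Prop :=
  ∀ (D p : ℕ) (s : Dat), Sch D p s → ∀ a ∈ s.R, ∀ b ∈ s.R,
    sm s.B a b < s.B ∧ Av s.st p a (sm s.B a b) ∧ Av s.st p b (sm s.B a b)

/-- the vertex labels `x` -/
structure Win {V : Type} [Fintype V] (G : SimpleGraph V) (D p : ℕ) (s : Dat) (cl x : V → ℕ) :
    Prop where
  row : ∀ v, cl v ∈ s.R → s.st (cl v) ≤ x v ∧ x v < s.st (cl v + 1)
  spA : ∀ v, s.B ≤ cl v → s.ty (s.part (cl v - s.B)) = true → x v < s.ξ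
  spB : ∀ v, s.B ≤ cl v → s.ty (s.part (cl v - s.B)) = false →
    D + 2 * p ≤ x v + s.ξ ∧ x v < D + 2 * p
  prp : ∀ u v, G.Adj u v → x u ≠ x v

/-- WIN: greedy in every row (`(μ + δ) D < ln`), greedy for the special vertices of type `true` in
`[0, ξ)` and of type `false` in `[N - ξ, N)` (`m (ω + δ) D < ξ`); the windows are disjoint
(`ξ ≤ p ≤ st K`) -/
def S_WIN : Prop :=
  ∀ (V : Type) [Fintype V] (G : SimpleGraph V) (D p : ℕ) (s : Dat) (cl : V → ℕ),
    Ctx G D p s cl → ∃ x : V → ℕ, Win G D p s cl x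

/-- labels of the edges inside the rows -/
structure Loo {V : Type} [Fintype V] (G : SimpleGraph V) (s : Dat) (cl : V → ℕ)
    (f : V → V → ℕ) : Prop where
  sym : ∀ u v, f u v = f v u
  mem : ∀ u v, G.Adj u v → cl u ∈ s.R → cl u = cl v → f u v ∈ blk s.st (sm s.B (cl u) (cl u))
  prp : ∀ u v w, G.Adj u v → G.Adj u w → cl u ∈ s.R → cl u = cl v → cl u = cl w → v ≠ w →
    f u v ≠ f u w

/-- LOO: Vizing inside every row (`(μ + δ) D + 1 ≤ ln`) -/
def S_LOO : Prop :=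
  ∀ (V : Type) [Fintype V] (G : SimpleGraph V) (D p : ℕ) (s : Dat) (cl : V → ℕ),
    Ctx G D p s cl → ∃ f : V → V → ℕ, Loo G s cl f

/-! ### the labels `T_z` -/

/-- the labels at distance at least `p` from `x z` which are in no class, in no reserved block, and
not on an edge inside the row -/
noncomputable def Tz {V : Type} [Fintype V] (G : SimpleGraph V) (D p : ℕ) (s : Dat)
    (cl x : V → ℕ) (f : V → V → ℕ) (z : V) : Finset ℕ :=
  (range (D + 2 * p)).filter fun n =>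
    (n + p ≤ x z ∨ x z + p ≤ n) ∧ n ∉ lab s.st (s.cls p (cl z)) ∧
    (∀ P < s.H, n ∉ lab s.st (s.S P (cl z))) ∧
    ∀ v, G.Adj z v → cl v = cl z → f z v ≠ n

/-- `n` can be in `T_z` for a vertex `z` of the row `a` -/
def Pt (s : Dat) (p a n : ℕ) : Prop :=
  n ∈ blk s.st (sm s.B a a) ∨
    ((n + p < s.st (a + 1) ∨ s.st a + p ≤ n) ∧
      ∀ β < s.B, Av s.st p a β → n ∉ blk s.st β)

/-- TZ1: the number of the labels in `T_z`: there are `D + 1` labels at distance at least `p` from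
`x z ∈ [p, D + p)`; the blocks of `cls a`, of the `S P a` and the labels of the edges inside the row
(in the block `sm a a`) are disjoint and all of them at distance at least `p` (`Av`) -/
def S_TZ1 : Prop :=
  ∀ (V : Type) [Fintype V] (G : SimpleGraph V) (D p : ℕ) (s : Dat) (cl x : V → ℕ)
    (f : V → V → ℕ), Ctx G D p s cl → Win G D p s cl x → Loo G s cl f →
    ∀ z, cl z ∈ s.R →
      (Tz G D p s cl x f z).card + ∑ β ∈ s.cls p (cl z), ln s.st β +
        ∑ P ∈ range s.H, (lab s.st (s.S P (cl z))).card + nb G (cell cl (cl z)) z = D + 1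

/-- TZ2: `T_z` is not empty (the block `sm a a` has more labels than the number of edges inside the
row: `lnl`, `row`); the labels of `T_z` satisfy `Pt` -/
def S_TZ2 : Prop :=
  ∀ (V : Type) [Fintype V] (G : SimpleGraph V) (D p : ℕ) (s : Dat) (cl x : V → ℕ)
    (f : V → V → ℕ), Ctx G D p s cl → Win G D p s cl x → Loo G s cl f →
    ∀ z, cl z ∈ s.R →
      1 ≤ (Tz G D p s cl x f z).card ∧ ∀ n ∈ Tz G D p s cl x f z, Pt s p (cl z) n

/-- TZ3: `T_z` has at most `15 μ D` labels (block `sm a a`: `≤ 3 μ D`; the labels `≥ x z + p` of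
blocks `β` which are not available are in `[st a + p, st (a + 1) + p - 2 + 3 μ D)`, because
`st β + 1 < st (a + 1) + p` and `ln β ≤ 3 μ D`; similarly on the left) -/
def S_TZ3 : Prop :=
  ∀ (V : Type) [Fintype V] (G : SimpleGraph V) (D p : ℕ) (s : Dat) (cl x : V → ℕ)
    (f : V → V → ℕ), Ctx G D p s cl → Win G D p s cl x → Loo G s cl f →
    ∀ z, cl z ∈ s.R → ((Tz G D p s cl x f z).card : ℝ) ≤ 15 * s.μ * D

/-- PTC: at most 16 rows can use the label `n`: if `n` is in the block `β`, then `sm a a = β` for at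
most two `a`; otherwise `β` is not available for `a`, and on the right (`st a + p ≤ n`) this gives
`st a + p ≤ n < st (β + 1)` and `st β + 1 < st (a + 1) + p`: the block `a` meets an interval of
length at most `3 μ D`, and blocks have more than `μ D` labels: at most 5 rows; same on the left -/
def S_PTC : Prop :=
  ∀ (D p : ℕ) (s : Dat), Sch D p s → ∀ n < D + 2 * p, (s.R.filter (fun a => Pt s p a n)).card ≤ 16

/-- the edges `T` between the rows and the special cells which get labels `c` from the sets `T_z` -/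
structure Tgr {V : Type} [Fintype V] (G : SimpleGraph V) (D p : ℕ) (s : Dat) (cl x : V → ℕ)
    (f : V → V → ℕ) (T : SimpleGraph V) (c : V → V → ℕ) : Prop where
  le : T ≤ G
  sup : ∀ u v, T.Adj u v → (cl u ∈ s.R ∧ s.B ≤ cl v) ∨ (s.B ≤ cl u ∧ cl v ∈ s.R)
  sym : ∀ u v, c u v = c v u
  prp : ∀ u v w, T.Adj u v → T.Adj u w → v ≠ w → c u v ≠ c u w
  mem : ∀ z u, T.Adj z u → cl z ∈ s.R → c z u ∈ Tz G D p s cl x f z
  deg : ∀ z, cl z ∈ s.R → nb T univ z + 1 = (Tz G D p s cl x f z).card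
  tyA : ∀ z u, T.Adj z u → cl z ∈ s.R → s.ty (s.part (cl u - s.B)) = true → p + s.ξ ≤ c z u
  tyB : ∀ z u, T.Adj z u → cl z ∈ s.R → s.ty (s.part (cl u - s.B)) = false →
    c z u + p + s.ξ ≤ D + 2 * p
  fre : ∀ z u, T.Adj z u → cl z ∈ s.R → c z u ∉ lab s.st (s.F (s.part (cl u - s.B)))
  ser : ∀ z u, T.Adj z u → cl z ∈ s.R → ∀ a ∈ s.R, c z u ∉ blk s.st (s.φ (cl u - s.B) a)
  few : ∀ z, cl z ∈ s.R → ∀ y < s.m,
    (nb T (cell cl (s.B + y)) z : ℝ) ≤ s.ρ1 / 8 * s.ω * D + 1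

/-- TST: from TSA with `κ = ⌈ρ1 ω D / 8⌉`, `t = ⌊15 μ D⌋`, `Tp z` = `T_z` without one label,
`w = ⌊.9 ω D⌋`, `ok n y`: the type of `y` is `true` iff `p + ξ ≤ n`, the block of `n` is not in
`F (part y)` and is not `φ y a` for any `a ∈ R`; at least `ρ3 / ω` cells by `fre`, and
`15 μ D / κ ≤ 120 μ / (ρ1 ω) ≤ .12 ρ3 / ω` by `rho3`; right degrees `≤ 16 (μ + δ) D` by PTC, TZ2 -/
def S_TST : Prop :=
  ∀ (V : Type) [Fintype V] (G : SimpleGraph V) (D p : ℕ) (s : Dat) (cl x : V → ℕ)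
    (f : V → V → ℕ), Ctx G D p s cl → Win G D p s cl x → Loo G s cl f →
    ∃ (T : SimpleGraph V) (c : V → V → ℕ), Tgr G D p s cl x f T c

/-! ### the left-over edges -/

/-- number of the edges between `z` and the special cell `y` which are not in `T` -/
noncomputable def Nz {V : Type} [Fintype V] (G T : SimpleGraph V) (s : Dat) (cl : V → ℕ)
    (z : V) (y : ℕ) : ℕ := nb G (cell cl (s.B + y)) z - nb T (cell cl (s.B + y)) z

/-- number of the edges between `z` and the rows which use the block `β` -/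
noncomputable def rz {V : Type} [Fintype V] (G : SimpleGraph V) (s : Dat) (cl : V → ℕ)
    (z : V) (β : ℕ) : ℕ :=
  ∑ b ∈ (s.R.erase (cl z)).filter (fun b => sm s.B (cl z) b = β), nb G (cell cl b) z

/-- number of the labels of the block `β` which are free for the edges to special vertices -/
noncomputable def pz {V : Type} [Fintype V] (G : SimpleGraph V) (s : Dat) (cl : V → ℕ)
    (z : V) (β : ℕ) : ℕ := ln s.st β - rz G s cl z β

/-- CNT: the number of the remaining edges is the number of the remaining labels -/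
def S_CNT : Prop :=
  ∀ (V : Type) [Fintype V] (G : SimpleGraph V) (D p : ℕ) (s : Dat) (cl x : V → ℕ)
    (f : V → V → ℕ) (T : SimpleGraph V) (c : V → V → ℕ), Ctx G D p s cl → Win G D p s cl x →
    Loo G s cl f → Tgr G D p s cl x f T c → ∀ z, cl z ∈ s.R →
      ∑ y ∈ range s.m, Nz G T s cl z y =
        ∑ β ∈ s.cls p (cl z), pz G s cl z β + ∑ P ∈ range s.H, (lab s.st (s.S P (cl z))).card

/-- DEG: the numbers `N_y` and `π_β` are nearly what they should be -/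
def S_DEG : Prop :=
  ∀ (V : Type) [Fintype V] (G : SimpleGraph V) (D p : ℕ) (s : Dat) (cl x : V → ℕ)
    (f : V → V → ℕ) (T : SimpleGraph V) (c : V → V → ℕ), Ctx G D p s cl → Win G D p s cl x →
    Loo G s cl f → Tgr G D p s cl x f T c → ∀ z, cl z ∈ s.R →
      (∀ y < s.m, (1 - s.ρ1 / 8) * s.ω * D - s.δ * D - 1 ≤ Nz G T s cl z y ∧
        (Nz G T s cl z y : ℝ) ≤ (s.ω + s.δ) * D) ∧
      s.m * s.ω * D - 15 * s.μ * D - s.m * s.δ * D ≤ ∑ y ∈ range s.m, (Nz G T s cl z y : ℝ) ∧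
      ∀ β ∈ s.cls p (cl z), rz G s cl z β ≤ ln s.st β ∧
        |(pz G s cl z β : ℝ) - s.dem D (cl z) β * D| ≤ s.δ * D

/-- EVD: even distribution: the `k P β` cells `y` with `part y = P`, `φ y = β` share `dd P β` -/
def S_EVD : Prop :=
  ∀ (m H : ℕ) (C : Finset ℕ) (part φ : ℕ → ℕ) (dd : ℕ → ℕ → ℕ),
    (∀ y < m, part y < H ∧ φ y ∈ C) →
    (∀ P < H, ∀ β ∈ C, ((range m).filter fun y => part y = P ∧ φ y = β).card = 0 → dd P β = 0) →
    ∃ r : ℕ → ℕ,
      (∀ y < m, r y * ((range m).filter fun y' => part y' = part y ∧ φ y' = φ y).card ≤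
        dd (part y) (φ y) + ((range m).filter fun y' => part y' = part y ∧ φ y' = φ y).card) ∧
      (∀ P < H, ∑ y ∈ (range m).filter (fun y => part y = P), r y = ∑ β ∈ C, dd P β) ∧
      ∀ β ∈ C, ∑ y ∈ (range m).filter (fun y => φ y = β), r y = ∑ P ∈ range H, dd P β

/-- the numbers of one vertex of the row `a`: `N y` edges to the special cell `y` (without `T`),
`π β` labels of the class `β` are free for them -/
structure Num (D p : ℕ) (s : Dat) (a : ℕ) (N π : ℕ → ℕ) : Prop where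
  sch : Sch D p s
  big : (100 : ℝ) * (s.m + 2) * (s.B + 2) * (s.H + 2) ≤ s.δ * D
  aR : a ∈ s.R
  lo : ∀ y < s.m, (1 - s.ρ1 / 8) * s.ω * D - s.δ * D - 1 ≤ N y
  up : ∀ y < s.m, (N y : ℝ) ≤ (s.ω + s.δ) * D
  sum : s.m * s.ω * D - 15 * s.μ * D - s.m * s.δ * D ≤ ∑ y ∈ range s.m, (N y : ℝ)
  pi : ∀ β ∈ s.cls p a, |(π β : ℝ) - s.dem D a β * D| ≤ s.δ * D
  cnt : ∑ y ∈ range s.m, N y =
    ∑ β ∈ s.cls p a, π β + ∑ P ∈ range s.H, (lab s.st (s.S P a)).card

/-- TRM: the real matrix: `E β = ∑_{φ y a = β} N y - π β`,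
`d P β = E β k P / kt + [β ∈ Hb a] g P lo β / ∑_{Hb} lo`, where
`g P = |lab (S P a)| - ∑_β E β k P / kt`.  Estimates (`kt ≥ 1` by sur1 and lnl):
`|E β - lo β D| ≤ ρ1 ω kt D / 8 + (kt + 1)(δ D + 2)`, so `.8 lo D ≤ E ≤ 1.1 lo D` by sur1, `small`,
`big`; `|g P| ≤ (e1 + 16 μ) D` by `par` and `sum` (`∑_y |N y - ω D| ≤ 15 μ D + 3 m δ D`);
`∑_P g P = 0` by `cnt`; the correction is at most `lo β D / (32 H)` by hb3, and
`E β k P / kt ≥ lo β D / (10 H)` by hb2; the upper bound `1.26 ρ2 ω D k P` by sur2 and hb2 -/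
def S_TRM : Prop :=
  ∀ (D p : ℕ) (s : Dat) (a : ℕ) (N π : ℕ → ℕ), Num D p s a N π →
    ∃ (E : ℕ → ℕ) (d : ℕ → ℕ → ℝ) (β0 : ℕ), β0 ∈ s.cls p a ∧
      (∀ β ∈ s.cls p a, ∑ y ∈ (range s.m).filter (fun y => s.φ y a = β), N y = π β + E β) ∧
      (∀ P < s.H, ∀ β ∈ s.cls p a, 0 ≤ d P β ∧ d P β ≤ 2 * s.ρ2 * s.ω * D * s.k P a β) ∧
      (∀ P < s.H, ∑ β ∈ s.cls p a, d P β = (lab s.st (s.S P a)).card) ∧
      (∀ β ∈ s.cls p a, ∑ P ∈ range s.H, d P β = E β) ∧
      ∀ P < s.H, ((s.cls p a).card : ℝ) * s.H ≤ d P β0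

/-- TRN: the numbers `r y` of the left-over edges of one vertex of the row `a`, from TRM, RNM, EVD
(`r y ≤ (d P β + B H) / k P β + 1 ≤ 2 ρ2 ω D + B H + 1`) -/
def S_TRN : Prop :=
  ∀ (D p : ℕ) (s : Dat) (a : ℕ) (N π : ℕ → ℕ), Num D p s a N π →
    ∃ r : ℕ → ℕ, (∀ y < s.m, r y ≤ N y ∧ (r y : ℝ) ≤ 4 * s.ρ2 * s.ω * D) ∧
      (∀ P < s.H, ∑ y ∈ (range s.m).filter (fun y => s.part y = P), r y =
        (lab s.st (s.S P a)).card) ∧
      ∀ β ∈ s.cls p a, ∑ y ∈ (range s.m).filter (fun y => s.φ y a = β), N y =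
        π β + ∑ y ∈ (range s.m).filter (fun y => s.φ y a = β), r y

/-- the left-over edges -/
structure Lgr {V : Type} [Fintype V] (G T : SimpleGraph V) (D p : ℕ) (s : Dat) (cl : V → ℕ)
    (L : SimpleGraph V) : Prop where
  le : L ≤ G
  dis : ∀ u v, L.Adj u v → ¬ T.Adj u v
  sup : ∀ u v, L.Adj u v → (cl u ∈ s.R ∧ s.B ≤ cl v) ∨ (s.B ≤ cl u ∧ cl v ∈ s.R)
  deg : ∀ z, cl z ∈ s.R → ∀ P < s.H,
    ∑ y ∈ (range s.m).filter (fun y => s.part y = P), nb L (cell cl (s.B + y)) z =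
      (lab s.st (s.S P (cl z))).card
  ser : ∀ z, cl z ∈ s.R → ∀ β ∈ s.cls p (cl z),
    ∑ y ∈ (range s.m).filter (fun y => s.φ y (cl z) = β), Nz G T s cl z y =
      pz G s cl z β +
        ∑ y ∈ (range s.m).filter (fun y => s.φ y (cl z) = β), nb L (cell cl (s.B + y)) z
  rig : ∀ u, s.B ≤ cl u → ∀ a ∈ s.R, (nb L (cell cl a) u : ℝ) ≤ 16 * s.ρ2 * s.μ * D

/-- LFT: for every row `a` and special cell `y` choose the `r_z y` left-over edges by SEL with
`r0 = ⌊4 ρ2 ω D⌋`, `d = ⌈ω D / 2⌉`, `C = ⌈2.2 μ / ω⌉`, in the graph `G` without `T`; `L` is the union.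
Then `r0 * C ≤ 4 ρ2 ω D (2.2 μ / ω + 1) ≤ 12.8 ρ2 μ D` -/
def S_LFT : Prop :=
  ∀ (V : Type) [Fintype V] (G : SimpleGraph V) (D p : ℕ) (s : Dat) (cl x : V → ℕ)
    (f : V → V → ℕ) (T : SimpleGraph V) (c : V → V → ℕ), Ctx G D p s cl → Win G D p s cl x →
    Loo G s cl f → Tgr G D p s cl x f T c → ∃ L : SimpleGraph V, Lgr G T D p s cl L

/-! ### the labels of the remaining edges -/

/-- labels of the left-over edges -/
structure Lef {V : Type} [Fintype V] (s : Dat) (cl : V → ℕ) (L : SimpleGraph V)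
    (h : V → V → ℕ) : Prop where
  sym : ∀ u v, h u v = h v u
  mem : ∀ z u, L.Adj z u → cl z ∈ s.R → h z u ∈ lab s.st (s.S (s.part (cl u - s.B)) (cl z))
  prp : ∀ u v w, L.Adj u v → L.Adj u w → v ≠ w → h u v ≠ h u w

/-- LEF: BLB with the groups `(P, S P a)`; at `z` the degree is `|lab (S P a)|` (`deg`), at `u` it is
at most `(number of the rows b with S P b = S P a) * 16 ρ2 μ D ≤ |lab (S P a)|` by S4; disjointness of
the label sets by S2 (at `z`) and S3 (at `u`) -/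
def S_LEF : Prop :=
  ∀ (V : Type) [Fintype V] (G T : SimpleGraph V) (D p : ℕ) (s : Dat) (cl : V → ℕ)
    (L : SimpleGraph V), Ctx G D p s cl → Lgr G T D p s cl L → ∃ h : V → V → ℕ, Lef s cl L h

/-- the edges between different rows and the edges between rows and special vertices which are
neither in `T` nor in `L` -/
def Rem {V : Type} (G T L : SimpleGraph V) (s : Dat) (cl : V → ℕ) (u v : V) : Prop :=
  G.Adj u v ∧ ¬ T.Adj u v ∧ ¬ L.Adj u v ∧ cl u ≠ cl v ∧ (cl u ∈ s.R ∨ cl v ∈ s.R)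

/-- labels of these edges -/
structure Pal {V : Type} [Fintype V] (G T : SimpleGraph V) (s : Dat) (cl : V → ℕ)
    (L : SimpleGraph V) (g : V → V → ℕ) : Prop where
  sym : ∀ u v, g u v = g v u
  row : ∀ u v, Rem G T L s cl u v → cl u ∈ s.R → cl v ∈ s.R →
    g u v ∈ blk s.st (sm s.B (cl u) (cl v))
  ser : ∀ z u, Rem G T L s cl z u → cl z ∈ s.R → s.B ≤ cl u →
    g z u ∈ blk s.st (s.φ (cl u - s.B) (cl z))
  prp : ∀ u v w, Rem G T L s cl u v → Rem G T L s cl u w → v ≠ w → g u v ≠ g u w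

/-- PAL: BLB with the groups `β < B`.  The row `a` is on the right side for `β` if there is a row
`b < a` with `sm a b = β`, otherwise on the left; the special vertices `u` of the cell `y` with
`φ y a = β` are on the other side than `a` (`a` is unique by ph2).  Degrees: at `z` exactly `ln β`
(Lgr.ser, rz) if `β` is in `cls`, otherwise 0; at `u` at most `(μ + δ) D ≤ ln β`. -/
def S_PAL : Prop :=
  ∀ (V : Type) [Fintype V] (G : SimpleGraph V) (D p : ℕ) (s : Dat) (cl x : V → ℕ)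
    (f : V → V → ℕ) (T : SimpleGraph V) (c : V → V → ℕ) (L : SimpleGraph V), Ctx G D p s cl →
    Win G D p s cl x → Loo G s cl f → Tgr G D p s cl x f T c → Lgr G T D p s cl L →
    ∃ g : V → V → ℕ, Pal G T s cl L g

/-- labels of the edges between special vertices -/
structure Yye {V : Type} [Fintype V] (G : SimpleGraph V) (s : Dat) (cl : V → ℕ)
    (k : V → V → ℕ) : Prop where
  sym : ∀ u v, k u v = k v u
  mem : ∀ u v, G.Adj u v → s.B ≤ cl u → s.B ≤ cl v →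
    k u v ∈ lab s.st (s.Φ (s.part (cl u - s.B)) (s.part (cl v - s.B)))
  prp : ∀ u v w, G.Adj u v → G.Adj u w → s.B ≤ cl u → s.B ≤ cl v → s.B ≤ cl w → v ≠ w →
    k u v ≠ k u w

/-- YYE: GRE with `d = ⌊m (ω + δ) D⌋` and Ph3 -/
def S_YYE : Prop :=
  ∀ (V : Type) [Fintype V] (G : SimpleGraph V) (D p : ℕ) (s : Dat) (cl : V → ℕ),
    Ctx G D p s cl → ∃ k : V → V → ℕ, Yye G s cl k

/-- ASM: the labelling.  All label sets at a vertex are disjoint and at distance at least `p` from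
the label of the vertex (see NOTES.md) -/
def S_ASM : Prop :=
  ∀ (V : Type) [Fintype V] (G : SimpleGraph V) (D p : ℕ) (s : Dat) (cl x : V → ℕ)
    (f : V → V → ℕ) (T : SimpleGraph V) (c : V → V → ℕ) (L : SimpleGraph V) (h g k : V → V → ℕ),
    Ctx G D p s cl → Win G D p s cl x → Loo G s cl f → Tgr G D p s cl x f T c →
    Lgr G T D p s cl L → Lef s cl L h → Pal G T s cl L g → Yye G s cl k →
    TotLab G p (D + 2 * p - 1)

end Pool.Agent.H65.HW
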