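import Pool.Agent.H65.HW.GBas

/-!
# Project HW: assembly of the graph side, and the theorem from both sides
-/

set_option autoImplicit false
open Classical Finset

namespace Pool.Agent.H65.HW

open Pool.Agent.H21.HV (nb Prp TotLab)
open Pool.Agent.H39.HW (sm Av ln blk lab Dat Sch Reg S_GRA S_SCH S_FIN)

theorem t_GRA (hCEL : S_CEL) (hWIN : S_WIN) (hLOO : S_LOO) (hTST : S_TST) (hLFT : S_LFT)
    (hLEF : S_LEF) (hPAL : S_PAL) (hYYE : S_YYE) (hASM : S_ASM) : S_GRA := by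
  intro B0 m0 δ hδ
  obtain ⟨D0, hD0⟩ := hCEL B0 m0 δ hδ
  refine ⟨D0, fun D hD p s hs hB hm hH hd V _ G hG => ?_⟩
  obtain ⟨cl, hc⟩ := hD0 D hD p s hs hB hm hH hd V G hG
  obtain ⟨x, hx⟩ := hWIN V G D p s cl hc
  obtain ⟨f, hf⟩ := hLOO V G D p s cl hc
  obtain ⟨T, c, hT⟩ := hTST V G D p s cl x f hc hx hf
  obtain ⟨L, hL⟩ := hLFT V G D p s cl x f T c hc hx hf hT
  obtain ⟨h, hh⟩ := hLEF V G T D p s cl L hc hL
  obtain ⟨g, hg⟩ := hPAL V G D p s cl x f T c L hc hx hf hT hL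
  obtain ⟨k, hk⟩ := hYYE V G D p s cl hc
  exact hASM V G D p s cl x f T c L h g k hc hx hf hT hL hh hg hk

theorem t_FIN (hREG : S_REG) (hGRA : S_GRA) (hSCH : S_SCH) : S_FIN := by
  intro ε hε
  obtain ⟨B0, m0, δ, hδ, D1, h1⟩ := hSCH ε hε
  obtain ⟨D2, h2⟩ := hGRA B0 m0 δ hδ
  refine ⟨max D1 D2, fun D hD p hp1 hp2 V _ G hG => ?_⟩
  obtain ⟨s, hs, hB, hm, hH, hd⟩ := h1 D (le_trans (le_max_left _ _) hD) p hp1 hp2
  refine hREG D p (D + 2 * p - 1) (fun V' _ G' hG' => ?_) V G hG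
  exact h2 D (le_trans (le_max_right _ _) hD) p s hs hB hm hH hd V' G' hG'

end Pool.Agent.H65.HW
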